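import Pool.Agent.Helper45.PQ.StA

/-!
# Project PQ (MP_a1f43d_co), module TBD: weighted Caro-Wei bound
-/

set_option autoImplicit false

open Module Classical
open scoped LinearAlgebra.Projectivization

namespace Pool.Agent.Helper76.PQ

open Pool.Agent.Helper45.PQ

universe u v

private noncomputable def cf (n : ℕ) : ℚ := (2 * (n : ℚ) - 1) / (3 * ((n : ℚ) + 1))

private theorem cf_nonneg {n : ℕ} (hn : 1 ≤ n) : 0 ≤ cf n := by
  have h1 : (1 : ℚ) ≤ n := by exact_mod_cast hn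
  unfold cf
  apply div_nonneg <;> linarith

private theorem cf_mul (n : ℕ) : ((n : ℚ) + 1) * cf n = (2 * (n : ℚ) - 1) / 3 := by
  have h1 : (0 : ℚ) ≤ n := Nat.cast_nonneg n
  unfold cf
  field_simp

private theorem cf_three (n : ℕ) : 3 * cf n = (2 * (n : ℚ) - 1) / ((n : ℚ) + 1) := by
  have h1 : (0 : ℚ) ≤ n := Nat.cast_nonneg n
  unfold cf
  field_simp

private theorem cf_one (n : ℕ) : 1 / (1 + (n : ℚ)) + cf n = 2 / 3 := by
  have h1 : (0 : ℚ) ≤ n := Nat.cast_nonneg n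
  have h2 : (1 + (n : ℚ)) ≠ 0 := by positivity
  have h3 : ((n : ℚ) + 1) ≠ 0 := by positivity
  unfold cf
  field_simp
  ring

private theorem cf_step (M n : ℕ) (hM : 1 ≤ M) (hn : 1 ≤ n) :
    1 / (1 + (M : ℚ)) ≤ 1 / (1 + ((n : ℚ) + M)) + cf n := by
  have h1 : (1 : ℚ) ≤ n := by exact_mod_cast hn
  have h2 : (1 : ℚ) ≤ M := by exact_mod_cast hM
  have e1 : 1 / (1 + (M : ℚ)) - 1 / (1 + ((n : ℚ) + M)) =
      n / ((1 + (M : ℚ)) * (1 + ((n : ℚ) + M))) := by
    field_simp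
    ring
  have e2 : (n : ℚ) / ((1 + (M : ℚ)) * (1 + ((n : ℚ) + M))) ≤ n / (2 * (2 + n)) := by
    apply div_le_div_of_nonneg_left (by linarith) (by positivity)
    apply mul_le_mul <;> linarith
  have e3 : (n : ℚ) / (2 * (2 + n)) ≤ cf n := by
    unfold cf
    rw [div_le_div_iff₀ (by positivity) (by positivity)]
    nlinarith
  linarith

private theorem tbd_aux {α : Type v} (m : α → ℕ) (A : Finset α) :
    (∀ R ∈ A, 1 ≤ m R) →
    2 / 3 ≤ 1 / (1 + ((∑ R ∈ A, m R : ℕ) : ℚ)) + ∑ R ∈ A, cf (m R) := by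
  induction A using Finset.induction_on with
  | empty =>
    intro _
    simp
    norm_num
  | insert a s ha ih =>
    intro hm
    have hms : ∀ R ∈ s, 1 ≤ m R := fun R hR => hm R (Finset.mem_insert_of_mem hR)
    have hma : 1 ≤ m a := hm a (Finset.mem_insert_self a s)
    rw [Finset.sum_insert ha, Finset.sum_insert ha]
    rcases s.eq_empty_or_nonempty with hs | ⟨b, hb⟩
    · subst hs
      have := cf_one (m a)
      simp only [Finset.sum_empty, add_zero]
      exact this.ge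
    · have hM : 1 ≤ ∑ R ∈ s, m R :=
        (hms b hb).trans (Finset.single_le_sum (f := m) (fun _ _ => Nat.zero_le _) hb)
      have h1 := cf_step _ _ hM hma
      have h2 := ih hms
      rw [Nat.cast_add]
      linarith

theorem hTBD (h1 : StCAW.{v}) (h2 : StDGT.{u, v}) (h3 : StRKA.{u, v}) : StTBD.{u, v} := by
  intro F _ _ V _ _ _ Q T H m h j c
  obtain ⟨I, hIT, hI, hsum⟩ := h1 (ℙ F V) (fun P X => QuadraticMap.polar Q P.rep X.rep = 0)
    (fun x y hxy => by rw [QuadraticMap.polar_comm]; exact hxy) T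
  have hQ : ∃ x, Q x ≠ 0 := by
    by_contra hcon
    push Not at hcon
    have h4 := c.qd.mx ⊤ (fun x _ => hcon x)
    rw [finrank_top, c.qd.hd] at h4
    omega
  have hIcard : I.card ≤ 44 ^ h + 1 :=
    (h3 F V Q h c.hq c.h1).1 c.qd.hd hQ I (fun P hP => c.sT P (hIT hP)) hI
  -- the lower bound for each summand
  have hP : ∀ P ∈ T, 2 / 3 - ∑ R ∈ H.filter (fun R => QuadraticMap.polar Q P.rep R.rep = 0),
      cf (m R) ≤ (1 : ℚ) / (1 + ((T.filter (fun y => y ≠ P ∧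
        QuadraticMap.polar Q P.rep y.rep = 0)).card : ℚ)) := by
    intro P hPT
    have h1 := (h2 F V Q T H m h j c).2.1 P hPT
    have h2 := tbd_aux m (H.filter (fun R => QuadraticMap.polar Q P.rep R.rep = 0))
      (fun R hR => c.mp R (Finset.mem_filter.mp hR).1)
    have h3 : (1 : ℚ) / (1 + ((∑ R ∈ H.filter (fun R => QuadraticMap.polar Q P.rep R.rep = 0),
        m R : ℕ) : ℚ)) ≤ (1 : ℚ) / (1 + ((T.filter (fun y => y ≠ P ∧
        QuadraticMap.polar Q P.rep y.rep = 0)).card : ℚ)) := by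
      apply one_div_le_one_div_of_le (by positivity)
      have h4 : ((T.filter (fun y => y ≠ P ∧
        QuadraticMap.polar Q P.rep y.rep = 0)).card : ℚ) ≤
          ((∑ R ∈ H.filter (fun R => QuadraticMap.polar Q P.rep R.rep = 0), m R : ℕ) : ℚ) := by
        exact_mod_cast h1
      linarith
    linarith
  have hS1 : ∑ P ∈ T, (2 / 3 - ∑ R ∈ H.filter (fun R => QuadraticMap.polar Q P.rep R.rep = 0),
      cf (m R)) ≤ (I.card : ℚ) := (Finset.sum_le_sum hP).trans hsum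
  -- swap the sums
  have hS2 : ∑ P ∈ T, ∑ R ∈ H.filter (fun R => QuadraticMap.polar Q P.rep R.rep = 0), cf (m R) =
      ∑ R ∈ H, (nu Q T R.rep : ℚ) * cf (m R) := by
    simp_rw [Finset.sum_filter]
    rw [Finset.sum_comm]
    apply Finset.sum_congr rfl
    intro R _
    rw [← Finset.sum_filter, Finset.sum_const, nsmul_eq_mul, nu]
    congr 3
    ext P
    simp only [Finset.mem_filter]
    rw [QuadraticMap.polar_comm]
  have hS3 : ∑ R ∈ H, (nu Q T R.rep : ℚ) * cf (m R) ≤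
      ∑ R ∈ H, ((2 * (m R : ℚ) - 1) / 3 * (Nat.card F : ℚ) ^ 3 + (1 + (j : ℚ)) * cf (m R)) := by
    apply Finset.sum_le_sum
    intro R hR
    have h1 : (nu Q T R.rep : ℚ) ≤ (1 + (m R : ℚ)) * (Nat.card F : ℚ) ^ 3 + 1 + j := by
      exact_mod_cast c.up R hR
    have h2 := cf_nonneg (c.mp R hR)
    have h4 := cf_mul (m R)
    calc (nu Q T R.rep : ℚ) * cf (m R) ≤ ((1 + (m R : ℚ)) * (Nat.card F : ℚ) ^ 3 + 1 + j) *
          cf (m R) := mul_le_mul_of_nonneg_right h1 h2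
      _ = (((m R : ℚ) + 1) * cf (m R)) * (Nat.card F : ℚ) ^ 3 + (1 + (j : ℚ)) * cf (m R) := by
          ring
      _ = (2 * (m R : ℚ) - 1) / 3 * (Nat.card F : ℚ) ^ 3 + (1 + (j : ℚ)) * cf (m R) := by
          rw [h4]
  have hS4 : ∑ R ∈ H, ((2 * (m R : ℚ) - 1) / 3 * (Nat.card F : ℚ) ^ 3 +
      (1 + (j : ℚ)) * cf (m R)) =
      (2 * (j : ℚ) - H.card) / 3 * (Nat.card F : ℚ) ^ 3 + (1 + (j : ℚ)) * ∑ R ∈ H, cf (m R) := by
    have hj : ∑ R ∈ H, (m R : ℚ) = j := by exact_mod_cast c.ms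
    rw [Finset.sum_add_distrib, ← Finset.sum_mul, ← Finset.sum_div, Finset.sum_sub_distrib,
      ← Finset.mul_sum, hj, Finset.sum_const, nsmul_eq_mul, ← Finset.mul_sum, mul_one]
  have hS5 : ∑ R ∈ H, (2 * (m R : ℚ) - 1) / ((m R : ℚ) + 1) = 3 * ∑ R ∈ H, cf (m R) := by
    rw [Finset.mul_sum]
    exact Finset.sum_congr rfl (fun R _ => (cf_three _).symm)
  rw [Finset.sum_sub_distrib, Finset.sum_const, nsmul_eq_mul, hS2] at hS1
  have hT : (T.card : ℚ) = (Nat.card F : ℚ) ^ 4 + 1 + j := by exact_mod_cast c.cT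
  have hI' : (I.card : ℚ) ≤ 44 ^ h + 1 := by exact_mod_cast hIcard
  rw [hS5]
  rw [hT] at hS1
  rw [hS4] at hS3
  have h6 : (Nat.card F : ℚ) ^ 4 = (Nat.card F : ℚ) ^ 3 * Nat.card F := by ring
  rw [h6] at hS1
  linarith

end Pool.Agent.Helper76.PQ
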